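import Mathlib

set_option autoImplicit false

/-! Planarisation of a finite family of weighted segments, no two of which overlap. -/

namespace Pool.Agent.H.MP_1ce9e9_gt

open Finset

/-- unit vector in the direction `z` -/
noncomputable def un (z : ℂ) : ℂ := z / ((‖z‖ : ℝ) : ℂ)

/-- the segment of an oriented pair -/
def sg (e : ℂ × ℂ) : Set ℂ := segment ℝ e.1 e.2

structure Pre (E : Finset (ℂ × ℂ)) (m : ℂ × ℂ → ℕ) : Prop where
  sym : ∀ e ∈ E, e.swap ∈ E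
  msym : ∀ e ∈ E, m e.swap = m e
  mpos : ∀ e ∈ E, m e ≠ 0
  ne : ∀ e ∈ E, e.1 ≠ e.2
  no : ∀ e ∈ E, ∀ f ∈ E, ∀ x y, x ≠ y → x ∈ sg e → y ∈ sg e → x ∈ sg f → y ∈ sg f →
    f = e ∨ f = e.swap

lemma sg_swap (e : ℂ × ℂ) : sg e.swap = sg e := segment_symm ℝ _ _

lemma sg_conv (e : ℂ × ℂ) {u w : ℂ} (hu : u ∈ sg e) (hw : w ∈ sg e) : segment ℝ u w ⊆ sg e :=
  (convex_segment e.1 e.2).segment_subset hu hw

lemma seg_par {v b w : ℂ} (h : w ∈ segment ℝ v b) :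
    ∃ s : ℝ, 0 ≤ s ∧ s ≤ 1 ∧ w = v + (s : ℂ) * (b - v) := by
  rw [segment_eq_image'] at h
  obtain ⟨s, ⟨h0, h1⟩, rfl⟩ := h
  exact ⟨s, h0, h1, by simp⟩

lemma par_seg {v b : ℂ} {s : ℝ} (h0 : 0 ≤ s) (h1 : s ≤ 1) :
    v + (s : ℂ) * (b - v) ∈ segment ℝ v b := by
  rw [segment_eq_image']
  exact ⟨s, ⟨h0, h1⟩, by simp⟩

lemma un_smul {s : ℝ} (hs : 0 < s) (z : ℂ) : un ((s : ℂ) * z) = un z := by
  unfold un
  by_cases hz : z = 0
  · simp [hz]
  have h1 : ((‖z‖ : ℝ) : ℂ) ≠ 0 := by simpa using hz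
  have h2 : (s : ℂ) ≠ 0 := by exact_mod_cast hs.ne'
  rw [norm_mul, Complex.norm_real, Real.norm_of_nonneg hs.le]
  push_cast
  field_simp

lemma un_neg (z : ℂ) : un (-z) = - un z := by
  unfold un; rw [norm_neg]; ring

lemma un_seg {v b w : ℂ} (h : w ∈ segment ℝ v b) (hw : w ≠ v) : un (w - v) = un (b - v) := by
  obtain ⟨s, h0, -, rfl⟩ := seg_par h
  have : s ≠ 0 := by rintro rfl; simp at hw
  rw [add_sub_cancel_left, un_smul (lt_of_le_of_ne h0 (Ne.symm this))]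

lemma un_opp {a b v : ℂ} (h : v ∈ segment ℝ a b) (ha : v ≠ a) (hb : v ≠ b) :
    un (b - v) + un (a - v) = 0 := by
  obtain ⟨s, h0, h1, rfl⟩ := seg_par h
  have hs0 : s ≠ 0 := by rintro rfl; simp at ha
  have hs1 : s ≠ 1 := by rintro rfl; simp at hb
  have e1 : b - (a + (s : ℂ) * (b - a)) = ((1 - s : ℝ) : ℂ) * (b - a) := by push_cast; ring
  have e2 : a - (a + (s : ℂ) * (b - a)) = -((s : ℂ) * (b - a)) := by ring
  rw [e1, e2, un_neg, un_smul (by have := lt_of_le_of_ne h1 hs1; linarith),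
    un_smul (lt_of_le_of_ne h0 (Ne.symm hs0))]
  ring

lemma seg_total {v b w w' : ℂ} (h : w ∈ segment ℝ v b) (h' : w' ∈ segment ℝ v b) :
    w ∈ segment ℝ v w' ∨ w' ∈ segment ℝ v w := by
  have key : ∀ s t : ℝ, 0 ≤ s → s ≤ t →
      v + (s : ℂ) * (b - v) ∈ segment ℝ v (v + (t : ℂ) * (b - v)) := by
    intro s t h0 hst
    rcases eq_or_lt_of_le (h0.trans hst) with ht | ht
    · have : s = 0 := by linarith
      subst this; simp [left_mem_segment]
    · have := par_seg (v := v) (b := v + (t : ℂ) * (b - v)) (s := s / t) (by positivity)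
        ((div_le_one ht).2 hst)
      have ht' : (t : ℂ) ≠ 0 := by exact_mod_cast ht.ne'
      convert this using 1
      push_cast; field_simp; ring
  obtain ⟨s, h0, -, rfl⟩ := seg_par h
  obtain ⟨t, h0', -, rfl⟩ := seg_par h'
  rcases le_total s t with hst | hst
  · exact Or.inl (key s t h0 hst)
  · exact Or.inr (key t s h0' hst)

lemma seg_split {a b v w : ℂ} (hv : v ∈ segment ℝ a b) (hw : w ∈ segment ℝ a b) :
    w ∈ segment ℝ v a ∨ w ∈ segment ℝ v b := by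
  rcases seg_total hv hw with h | h
  · right
    obtain ⟨s, h0, h1, rfl⟩ := seg_par hv
    obtain ⟨t, h0', h1', rfl⟩ := seg_par hw
    by_cases hab : b - a = 0
    · simp [hab, left_mem_segment]
    obtain ⟨r, r0, r1, hr⟩ := seg_par h
    have hst : s = r * t := by
      have : ((s : ℂ) - r * t) * (b - a) = 0 := by linear_combination hr
      have := (mul_eq_zero.1 this).resolve_right hab
      exact_mod_cast sub_eq_zero.1 this
    have hst' : s ≤ t := by nlinarith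
    rcases eq_or_lt_of_le h1 with hs | hs
    · have : t = s := by linarith
      subst this; exact left_mem_segment _ _ _
    · have := par_seg (v := a + (s : ℂ) * (b - a)) (b := b) (s := (t - s) / (1 - s))
        (div_nonneg (by linarith) (by linarith)) ((div_le_one (by linarith)).2 (by linarith))
      have ht' : (1 - s : ℂ) ≠ 0 := by
        have : (1 - s : ℝ) ≠ 0 := by linarith
        exact_mod_cast this
      convert this using 1
      push_cast; field_simp; ring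
  · left; rwa [segment_symm]

lemma seg_both {a b v w : ℂ} (hv : v ∈ segment ℝ a b) (h1 : w ∈ segment ℝ v a)
    (h2 : w ∈ segment ℝ v b) : w = v := by
  have e1 := dist_add_dist_of_mem_segment hv
  have e2 := dist_add_dist_of_mem_segment h1
  have e3 := dist_add_dist_of_mem_segment h2
  have e4 := dist_triangle a w b
  rw [dist_comm a v] at e1
  rw [dist_comm a w] at e4
  have : dist v w ≤ 0 := by linarith
  exact (dist_le_zero.1 this).symm

lemma real_gap (a b c d x : ℝ) (hab : a ≠ b) (hcd : c ≠ d)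
    (h1 : c ∈ Set.uIcc a b → c = a ∨ c = b) (h2 : d ∈ Set.uIcc a b → d = a ∨ d = b)
    (h3 : a ∈ Set.uIcc c d → a = c ∨ a = d) (h4 : b ∈ Set.uIcc c d → b = c ∨ b = d)
    (hx : x ∈ Set.uIcc a b) (hx' : x ∈ Set.uIcc c d)
    (hn : ¬ ((a = c ∧ b = d) ∨ (a = d ∧ b = c))) : x = a ∨ x = b := by
  simp only [Set.mem_uIcc] at *
  grind

lemma line_gap {p q a b c d x : ℂ} (hpq : p ≠ q) (ha : a ∈ segment ℝ p q) (hb : b ∈ segment ℝ p q)
    (hc : c ∈ segment ℝ p q) (hd : d ∈ segment ℝ p q) (hab : a ≠ b) (hcd : c ≠ d)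
    (h1 : c ∈ segment ℝ a b → c = a ∨ c = b) (h2 : d ∈ segment ℝ a b → d = a ∨ d = b)
    (h3 : a ∈ segment ℝ c d → a = c ∨ a = d) (h4 : b ∈ segment ℝ c d → b = c ∨ b = d)
    (hx : x ∈ segment ℝ a b) (hx' : x ∈ segment ℝ c d)
    (hn : ¬ ((a = c ∧ b = d) ∨ (a = d ∧ b = c))) : x = a ∨ x = b := by
  have hxs : x ∈ segment ℝ p q := (convex_segment p q).segment_subset ha hb hx
  rw [segment_eq_image_lineMap] at ha hb hc hd hxs
  obtain ⟨a, -, rfl⟩ := ha
  obtain ⟨b, -, rfl⟩ := hb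
  obtain ⟨c, -, rfl⟩ := hc
  obtain ⟨d, -, rfl⟩ := hd
  obtain ⟨x, -, rfl⟩ := hxs
  have hi : Function.Injective (AffineMap.lineMap (k := ℝ) p q) := AffineMap.lineMap_injective ℝ hpq
  have key : ∀ s t u : ℝ, AffineMap.lineMap (k := ℝ) p q u ∈
      segment ℝ (AffineMap.lineMap (k := ℝ) p q s) (AffineMap.lineMap (k := ℝ) p q t) ↔
      u ∈ Set.uIcc s t := by
    intro s t u
    rw [← image_segment, hi.mem_set_image, segment_eq_uIcc]
  simp only [key, hi.eq_iff, ne_eq] at *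
  exact real_gap a b c d x hab hcd h1 h2 h3 h4 hx hx' hn

/-- adjacency of the planarised net -/
def Ad (E : Finset (ℂ × ℂ)) (V : Finset ℂ) (u w : ℂ) : Prop :=
  u ≠ w ∧ u ∈ V ∧ w ∈ V ∧ (∃ e ∈ E, u ∈ sg e ∧ w ∈ sg e) ∧
    ∀ v ∈ V, v ∈ segment ℝ u w → v = u ∨ v = w

lemma Ad.symm {E : Finset (ℂ × ℂ)} {V : Finset ℂ} {u w : ℂ} (h : Ad E V u w) : Ad E V w u := by
  obtain ⟨h1, h2, h3, ⟨e, he, h4, h5⟩, h6⟩ := h
  refine ⟨h1.symm, h3, h2, ⟨e, he, h5, h4⟩, fun v hv hs => ?_⟩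
  rw [segment_symm] at hs
  exact (h6 v hv hs).symm

lemma ex_next {E : Finset (ℂ × ℂ)} {V : Finset ℂ} {e : ℂ × ℂ} (he : e ∈ E) (h2 : e.2 ∈ V) {v : ℂ}
    (hv : v ∈ V) (hs : v ∈ sg e) (hne : v ≠ e.2) :
    ∃ w, Ad E V v w ∧ w ∈ segment ℝ v e.2 := by
  classical
  obtain ⟨w, hw, hmin⟩ := exists_min_image (V.filter fun u => u ∈ segment ℝ v e.2 ∧ u ≠ v)
    (fun u => dist v u) ⟨e.2, by simp [h2, right_mem_segment, hne.symm]⟩
  rw [mem_filter] at hw
  obtain ⟨hwV, hws, hwv⟩ := hw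
  refine ⟨w, ⟨hwv.symm, hv, hwV, ⟨e, he, hs, sg_conv e hs (right_mem_segment _ _ _) hws⟩, ?_⟩, hws⟩
  intro u hu hus
  by_cases huv : u = v
  · exact Or.inl huv
  right
  have h1 : u ∈ segment ℝ v e.2 :=
    (convex_segment v e.2).segment_subset (left_mem_segment _ _ _) hws hus
  have h3 := hmin u (mem_filter.2 ⟨hu, h1, huv⟩)
  have h4 := dist_add_dist_of_mem_segment hus
  exact dist_le_zero.1 (by linarith)

open Classical in
/-- multiplicities of the planarised net -/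
noncomputable def mu (E : Finset (ℂ × ℂ)) (m : ℂ × ℂ → ℕ) (V : Finset ℂ) (u w : ℂ) : ℕ :=
  if Ad E V u w then (E.filter fun e => u ∈ sg e ∧ w ∈ sg e).sup m else 0

lemma mu_eq {E : Finset (ℂ × ℂ)} {m : ℂ × ℂ → ℕ} (h : Pre E m) {V : Finset ℂ} {u w : ℂ}
    (ha : Ad E V u w) {e : ℂ × ℂ} (he : e ∈ E) (hu : u ∈ sg e) (hw : w ∈ sg e) :
    mu E m V u w = m e := by
  classical
  unfold mu
  rw [if_pos ha]
  apply le_antisymm
  · apply Finset.sup_le
    intro f hf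
    rw [mem_filter] at hf
    rcases h.no e he f hf.1 u w ha.1 hu hw hf.2.1 hf.2.2 with rfl | rfl
    · exact le_rfl
    · exact (h.msym e he).le
  · exact Finset.le_sup (f := m) (mem_filter.2 ⟨he, hu, hw⟩)

lemma mu_ne {E : Finset (ℂ × ℂ)} {m : ℂ × ℂ → ℕ} (h : Pre E m) {V : Finset ℂ} {u w : ℂ} :
    mu E m V u w ≠ 0 ↔ Ad E V u w := by
  constructor
  · intro hm
    by_contra hn
    exact hm (by unfold mu; rw [if_neg hn])
  · intro ha
    obtain ⟨e, he, hu, hw⟩ := ha.2.2.2.1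
    rw [mu_eq h ha he hu hw]
    exact h.mpos e he

open Classical in
theorem planarize {E : Finset (ℂ × ℂ)} {m : ℂ × ℂ → ℕ} (h : Pre E m) :
    ∃ (V : Finset ℂ) (μ : ℂ → ℂ → ℕ),
      (∀ e ∈ E, e.1 ∈ V) ∧ (∀ a b, μ a b = μ b a) ∧
      (∀ a b, μ a b ≠ 0 → a ≠ b ∧ a ∈ V ∧ b ∈ V ∧ ∃ e ∈ E, μ a b = m e ∧ a ∈ sg e ∧ b ∈ sg e) ∧
      (∀ a b c d, μ a b ≠ 0 → μ c d ≠ 0 → ¬ ((a = c ∧ b = d) ∨ (a = d ∧ b = c)) →
        ∀ x ∈ segment ℝ a b ∩ segment ℝ c d, (x = a ∨ x = b) ∧ (x = c ∨ x = d)) ∧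
      (∀ a b v, μ a b ≠ 0 → v ∈ V → v ∈ segment ℝ a b → v = a ∨ v = b) ∧
      (∀ v ∈ V, ∑ w ∈ V.filter (fun w => μ v w ≠ 0), (μ v w : ℂ) * un (w - v) =
        ∑ e ∈ E.filter (fun e => e.1 = v), (m e : ℂ) * un (e.2 - v)) ∧
      (∀ v ∈ V, (E.filter (fun e => e.1 = v)).card ≤ (V.filter (fun w => μ v w ≠ 0)).card) ∧
      (∀ v ∈ V, (∀ e ∈ E, e.1 ≠ v) → 3 ≤ (V.filter (fun w => μ v w ≠ 0)).card) ∧
      (∀ v ∈ V, ∃ e ∈ E, v ∈ sg e) ∧
      (∀ e ∈ E, ∀ v ∈ V, v ∈ sg e → Relation.ReflTransGen (fun a b => μ a b ≠ 0) v e.2) := by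
  have hfin : Set.Finite {x : ℂ | ∃ e ∈ E, ∃ f ∈ E, ¬ (f = e ∨ f = e.swap) ∧ x ∈ sg e ∧ x ∈ sg f} := by
    have : {x : ℂ | ∃ e ∈ E, ∃ f ∈ E, ¬ (f = e ∨ f = e.swap) ∧ x ∈ sg e ∧ x ∈ sg f} =
        ⋃ e ∈ (E : Set (ℂ × ℂ)), ⋃ f ∈ (E : Set (ℂ × ℂ)),
          {x : ℂ | ¬ (f = e ∨ f = e.swap) ∧ x ∈ sg e ∧ x ∈ sg f} := by
      ext x; simp only [Set.mem_setOf_eq, Set.mem_iUnion, mem_coe, exists_prop]
    rw [this]
    refine E.finite_toSet.biUnion fun e he => E.finite_toSet.biUnion fun f hf => ?_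
    refine Set.Subsingleton.finite fun x hx y hy => ?_
    by_contra hxy
    exact hx.1 (h.no e he f hf x y hxy hx.2.1 hy.2.1 hx.2.2 hy.2.2)
  obtain ⟨V, hV⟩ : ∃ V : Finset ℂ, ∀ x, x ∈ V ↔ (∃ e ∈ E, e.1 = x) ∨
      ∃ e ∈ E, ∃ f ∈ E, ¬ (f = e ∨ f = e.swap) ∧ x ∈ sg e ∧ x ∈ sg f :=
    ⟨E.image Prod.fst ∪ hfin.toFinset, fun x => by
      rw [mem_union, mem_image, Set.Finite.mem_toFinset]; rfl⟩
  have hV1 : ∀ e ∈ E, e.1 ∈ V := fun e he => (hV _).2 (Or.inl ⟨e, he, rfl⟩)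
  have hV2 : ∀ e ∈ E, e.2 ∈ V := fun e he => hV1 e.swap (h.sym e he)
  -- the bijection between neighbours and oriented segments
  have hbij : ∀ v ∈ V, ∃ nx : ∀ e ∈ E.filter (fun e => v ∈ sg e ∧ v ≠ e.2), ℂ,
      (∀ e he, Ad E V v (nx e he) ∧ nx e he ∈ segment ℝ v e.2) ∧
      (∀ e he f hf, nx e he = nx f hf → e = f) ∧
      (∀ w, Ad E V v w → ∃ e he, nx e he = w) := by
    intro v hv
    have : ∀ e ∈ E.filter (fun e => v ∈ sg e ∧ v ≠ e.2), ∃ w, Ad E V v w ∧ w ∈ segment ℝ v e.2 := by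
      intro e he
      rw [mem_filter] at he
      exact ex_next he.1 (hV2 e he.1) hv he.2.1 he.2.2
    choose nx hnx using this
    refine ⟨nx, hnx, ?_, ?_⟩
    · intro e he f hf hef
      obtain ⟨ha, hs⟩ := hnx e he
      obtain ⟨-, hs'⟩ := hnx f hf
      rw [← hef] at hs'
      rw [mem_filter] at he hf
      rcases h.no e he.1 f hf.1 v _ ha.1 he.2.1 (sg_conv e he.2.1 (right_mem_segment _ _ _) hs)
        hf.2.1 (sg_conv f hf.2.1 (right_mem_segment _ _ _) hs') with rfl | rfl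
      · rfl
      · exact absurd (seg_both he.2.1 hs' hs).symm ha.1
    · intro w hw
      have key : ∀ e ∈ E, v ∈ sg e → w ∈ segment ℝ v e.2 → ∃ e he, nx e he = w := by
        intro e he hve hwe
        have hne : v ≠ e.2 := by
          intro hh
          rw [← hh, segment_same] at hwe
          exact hw.1 (Set.mem_singleton_iff.1 hwe).symm
        have he' : e ∈ E.filter (fun e => v ∈ sg e ∧ v ≠ e.2) := mem_filter.2 ⟨he, hve, hne⟩
        refine ⟨e, he', ?_⟩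
        obtain ⟨ha, hs⟩ := hnx e he'
        rcases seg_total hs hwe with h1 | h1
        · exact (hw.2.2.2.2 _ ha.2.2.1 h1).resolve_left ha.1.symm
        · exact ((ha.2.2.2.2 _ hw.2.2.1 h1).resolve_left hw.1.symm).symm
      obtain ⟨e, he, hve, hwe⟩ := hw.2.2.2.1
      rcases seg_split hve hwe with h1 | h1
      · exact key e.swap (h.sym e he) (by rwa [sg_swap]) h1
      · exact key e he hve h1
  have hcard : ∀ v ∈ V, (E.filter (fun e => v ∈ sg e ∧ v ≠ e.2)).card =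
      (V.filter (fun w => mu E m V v w ≠ 0)).card := by
    intro v hv
    obtain ⟨nx, h1, h2, h3⟩ := hbij v hv
    refine card_bij nx (fun e he => ?_) h2 (fun w hw => h3 w ((mu_ne h).1 (mem_filter.1 hw).2))
    exact mem_filter.2 ⟨(h1 e he).1.2.2.1, (mu_ne h).2 (h1 e he).1⟩
  refine ⟨V, mu E m V, hV1, ?_, ?_, ?_, ?_, ?_, ?_, ?_, ?_, ?_⟩
  · intro a b
    by_cases hab : Ad E V a b
    · obtain ⟨e, he, h1, h2⟩ := hab.2.2.2.1
      rw [mu_eq h hab he h1 h2, mu_eq h hab.symm he h2 h1]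
    · have h1 : mu E m V a b = 0 := by by_contra hh; exact hab ((mu_ne h).1 hh)
      have h2 : mu E m V b a = 0 := by by_contra hh; exact hab ((mu_ne h).1 hh).symm
      rw [h1, h2]
  · intro a b hab
    have hab := (mu_ne h).1 hab
    obtain ⟨e, he, h1, h2⟩ := hab.2.2.2.1
    exact ⟨hab.1, hab.2.1, hab.2.2.1, e, he, mu_eq h hab he h1 h2, h1, h2⟩
  · intro a b c d hab hcd hn x hx
    have hab := (mu_ne h).1 hab
    have hcd := (mu_ne h).1 hcd
    obtain ⟨e, he, h1, h2⟩ := hab.2.2.2.1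
    obtain ⟨f, hf, h3, h4⟩ := hcd.2.2.2.1
    by_cases hef : f = e ∨ f = e.swap
    · have hs : sg f = sg e := by
        rcases hef with rfl | rfl
        · rfl
        · exact sg_swap e
      rw [hs] at h3 h4
      refine ⟨line_gap (h.ne e he) h1 h2 h3 h4 hab.1 hcd.1 (hab.2.2.2.2 c hcd.2.1)
        (hab.2.2.2.2 d hcd.2.2.1) (hcd.2.2.2.2 a hab.2.1) (hcd.2.2.2.2 b hab.2.2.1) hx.1 hx.2 hn,
        line_gap (h.ne e he) h3 h4 h1 h2 hcd.1 hab.1 (hcd.2.2.2.2 a hab.2.1)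
        (hcd.2.2.2.2 b hab.2.2.1) (hab.2.2.2.2 c hcd.2.1) (hab.2.2.2.2 d hcd.2.2.1) hx.2 hx.1 ?_⟩
      rintro (⟨rfl, rfl⟩ | ⟨rfl, rfl⟩)
      · exact hn (Or.inl ⟨rfl, rfl⟩)
      · exact hn (Or.inr ⟨rfl, rfl⟩)
    · have hxV : x ∈ V :=
        (hV x).2 (Or.inr ⟨e, he, f, hf, hef, sg_conv e h1 h2 hx.1, sg_conv f h3 h4 hx.2⟩)
      exact ⟨hab.2.2.2.2 x hxV hx.1, hcd.2.2.2.2 x hxV hx.2⟩
  · intro a b v hab hv hs
    exact ((mu_ne h).1 hab).2.2.2.2 v hv hs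
  · intro v hv
    obtain ⟨nx, h1, h2, h3⟩ := hbij v hv
    have e1 : ∑ e ∈ E.filter (fun e => v ∈ sg e ∧ v ≠ e.2), (m e : ℂ) * un (e.2 - v) =
        ∑ w ∈ V.filter (fun w => mu E m V v w ≠ 0), (mu E m V v w : ℂ) * un (w - v) := by
      refine sum_bij nx (fun e he => ?_) h2 (fun w hw => h3 w ((mu_ne h).1 (mem_filter.1 hw).2)) ?_
      · exact mem_filter.2 ⟨(h1 e he).1.2.2.1, (mu_ne h).2 (h1 e he).1⟩
      · intro e he
        obtain ⟨ha, hs⟩ := h1 e he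
        have he' := mem_filter.1 he
        rw [mu_eq h ha he'.1 he'.2.1 (sg_conv e he'.2.1 (right_mem_segment _ _ _) hs),
          un_seg hs ha.1.symm]
    rw [← e1, ← sum_filter_add_sum_filter_not (E.filter (fun e => v ∈ sg e ∧ v ≠ e.2))
      (fun e => e.1 = v)]
    have e2 : (E.filter (fun e => v ∈ sg e ∧ v ≠ e.2)).filter (fun e => e.1 = v) =
        E.filter (fun e => e.1 = v) := by
      ext e
      simp only [mem_filter]
      constructor
      · exact fun hh => ⟨hh.1.1, hh.2⟩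
      · rintro ⟨he, rfl⟩
        exact ⟨⟨he, left_mem_segment _ _ _, h.ne e he⟩, rfl⟩
    rw [e2, sum_involution (s := (E.filter (fun e => v ∈ sg e ∧ v ≠ e.2)).filter
      (fun e => ¬ e.1 = v)) (fun e _ => e.swap), add_zero]
    · intro e he
      simp only [mem_filter] at he
      rw [h.msym e he.1.1, ← mul_add, Prod.snd_swap, un_opp he.1.2.1 (Ne.symm he.2) he.1.2.2, mul_zero]
    · intro e he _ hh
      simp only [mem_filter] at he
      exact h.ne e he.1.1 (congrArg Prod.snd hh)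
    · intro e he
      simp only [mem_filter] at he ⊢
      exact ⟨⟨h.sym e he.1.1, by rw [sg_swap]; exact he.1.2.1, Ne.symm he.2⟩, Ne.symm he.1.2.2⟩
    · intro e _; rfl
  · intro v hv
    rw [← hcard v hv]
    refine card_le_card fun e he => ?_
    rw [mem_filter] at he ⊢
    obtain ⟨he, rfl⟩ := he
    exact ⟨he, left_mem_segment _ _ _, h.ne e he⟩
  · intro v hv hn
    rw [← hcard v hv]
    rcases (hV v).1 hv with ⟨e, he, h1⟩ | ⟨e, he, f, hf, hef, h1, h2⟩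
    · exact absurd h1 (hn e he)
    have hmem : ∀ g ∈ E, v ∈ sg g → g ∈ E.filter (fun e => v ∈ sg e ∧ v ≠ e.2) :=
      fun g hg hs => mem_filter.2 ⟨hg, hs, (hn g.swap (h.sym g hg)).symm⟩
    rw [Nat.succ_le_iff, two_lt_card]
    refine ⟨e, hmem e he h1, e.swap, hmem _ (h.sym e he) (by rwa [sg_swap]), f, hmem f hf h2, ?_,
      fun hh => hef (Or.inl hh.symm), fun hh => hef (Or.inr hh.symm)⟩
    intro hh
    exact h.ne e he (congrArg Prod.fst hh)
  · intro v hv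
    rcases (hV v).1 hv with ⟨e, he, rfl⟩ | ⟨e, he, f, hf, hef, h1, h2⟩
    · exact ⟨e, he, left_mem_segment _ _ _⟩
    · exact ⟨e, he, h1⟩
  · intro e he
    have : ∀ n : ℕ, ∀ v ∈ V, v ∈ sg e → (V.filter fun u => dist u e.2 < dist v e.2).card = n →
        Relation.ReflTransGen (fun a b => mu E m V a b ≠ 0) v e.2 := by
      intro n
      induction n using Nat.strong_induction_on with
      | _ n ih =>
        intro v hv hs hn
        by_cases hve : v = e.2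
        · rw [hve]
        obtain ⟨w, ha, hw⟩ := ex_next he (hV2 e he) hv hs hve
        have hd : dist w e.2 < dist v e.2 := by
          have := dist_add_dist_of_mem_segment hw
          have := dist_pos.2 ha.1
          linarith
        refine Relation.ReflTransGen.head ((mu_ne h).2 ha) (ih _ ?_ w ha.2.2.1
          (sg_conv e hs (right_mem_segment _ _ _) hw) rfl)
        rw [← hn]
        refine card_lt_card ⟨fun u hu => ?_, fun hh => ?_⟩
        · rw [mem_filter] at hu ⊢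
          exact ⟨hu.1, hu.2.trans hd⟩
        · have := hh (mem_filter.2 ⟨ha.2.2.1, hd⟩)
          exact lt_irrefl _ (mem_filter.1 this).2
    exact fun v hv hs => this _ v hv hs rfl

end Pool.Agent.H.MP_1ce9e9_gt
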