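import Pool.Agent.H.MP_1ce9e9_gt.A

set_option autoImplicit false

/-! Three-fold symmetric nets whose main vertices lie on the three axes of an equilateral triangle. -/

namespace Pool.Agent.H.MP_1ce9e9_gt

open Finset

/-- the three cube roots of unity -/
noncomputable def rt : Fin 3 → ℂ := ![1, ⟨-1 / 2, √3 / 2⟩, ⟨-1 / 2, -√3 / 2⟩]

/-- the point at signed distance `a` on the `k`-th axis -/
noncomputable def Pt (k : Fin 3) (a : ℝ) : ℂ := (a : ℂ) * rt k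

/-- half of the inward pull of a pair of edges -/
noncomputable def gg (a b : ℝ) : ℝ := (a + b / 2) / √(a ^ 2 + a * b + b ^ 2)

lemma s3 : √3 * √3 = 3 := Real.mul_self_sqrt (by norm_num)

lemma s3p : 0 < √3 := Real.sqrt_pos.2 (by norm_num)

lemma rt_indep {k l : Fin 3} (h : k ≠ l) {a b : ℝ} (e : (a : ℂ) * rt k + (b : ℂ) * rt l = 0) :
    a = 0 ∧ b = 0 := by
  have h1 := congrArg Complex.re e
  have h2 := congrArg Complex.im e
  have := s3p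
  fin_cases k <;> fin_cases l <;> simp [rt] at h h1 h2 <;> constructor <;>
    first
    | nlinarith
    | (rcases h2 with h2 | h2 <;> nlinarith)

lemma rt_third {k l p : Fin 3} (h : k ≠ l) (h1 : p ≠ k) (h2 : p ≠ l) : rt p = -rt k - rt l := by
  fin_cases k <;> fin_cases l <;> fin_cases p <;> simp [rt] at h h1 h2 ⊢ <;>
    apply Complex.ext <;> simp <;> ring

lemma rt_ne (k : Fin 3) : rt k ≠ 0 := by
  intro h
  have h1 := congrArg Complex.re h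
  fin_cases k <;> simp [rt] at h1

lemma rt_norm (k : Fin 3) : ‖rt k‖ = 1 := by
  have := s3
  have : ‖rt k‖ ^ 2 = 1 := by
    rw [Complex.sq_norm, Complex.normSq_apply]
    fin_cases k <;> simp [rt] <;> nlinarith
  nlinarith [norm_nonneg (rt k)]

lemma Pt_inj {k l : Fin 3} {a b : ℝ} (ha : a ≠ 0) (e : Pt k a = Pt l b) : k = l ∧ a = b := by
  unfold Pt at e
  by_cases h : k = l
  · subst h
    exact ⟨rfl, by exact_mod_cast mul_right_cancel₀ (rt_ne k) e⟩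
  · exact absurd (rt_indep h (a := a) (b := -b) (by push_cast; linear_combination e)).1 ha

lemma Pt_norm {k l : Fin 3} (h : k ≠ l) (a b : ℝ) :
    ‖Pt l b - Pt k a‖ = √(a ^ 2 + a * b + b ^ 2) := by
  have := s3
  rw [Complex.norm_def]
  congr 1
  rw [Complex.normSq_apply]
  fin_cases k <;> fin_cases l <;> simp [rt, Pt] at h ⊢ <;> nlinarith

lemma Pt_sum (k : Fin 3) (a b : ℝ) :
    ∑ l ∈ univ.erase k, un (Pt l b - Pt k a) = -2 * (gg a b : ℂ) * rt k := by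
  obtain ⟨l, p, hl, hp, hlp, hs⟩ : ∃ l p : Fin 3, l ≠ k ∧ p ≠ k ∧ l ≠ p ∧ univ.erase k = {l, p} := by
    revert k; decide
  rw [hs, sum_pair hlp]
  unfold un gg
  rw [Pt_norm hl.symm, Pt_norm hp.symm]
  unfold Pt
  rw [rt_third hl.symm hp hlp.symm]
  push_cast
  ring

lemma col_of {A B C D x y : ℂ} (hxy : x ≠ y) (h1 : x ∈ segment ℝ A B) (h2 : y ∈ segment ℝ A B)
    (h3 : x ∈ segment ℝ C D) (h4 : y ∈ segment ℝ C D) : ∃ s : ℝ, C = A + (s : ℂ) * (B - A) := by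
  obtain ⟨a, -, -, ha⟩ := seg_par h1
  obtain ⟨b, -, -, hb⟩ := seg_par h2
  obtain ⟨c, -, -, hc⟩ := seg_par h3
  obtain ⟨d, -, -, hd⟩ := seg_par h4
  have hcd : ((d : ℂ) - c) ≠ 0 := by
    intro hh
    apply hxy
    rw [hc, hd]
    linear_combination (C - D) * hh
  refine ⟨a - c * (b - a) / (d - c), ?_⟩
  push_cast
  field_simp
  linear_combination (d : ℂ) * ha - (d : ℂ) * hc - (c : ℂ) * hb + (c : ℂ) * hd

lemma tri {k l p : Fin 3} (h : k ≠ l) {a b c s : ℝ} (ha : a ≠ 0) (hb : b ≠ 0)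
    (e : Pt p c = Pt k a + (s : ℂ) * (Pt l b - Pt k a)) :
    (p = k ∧ c = a) ∨ (p = l ∧ c = b) ∨ (p ≠ k ∧ p ≠ l ∧ a * b + b * c + c * a = 0) := by
  unfold Pt at e
  by_cases h1 : p = k
  · subst h1
    obtain ⟨e1, e2⟩ := rt_indep h (a := (1 - s) * a - c) (b := s * b)
      (by push_cast; linear_combination -e)
    have := (mul_eq_zero.1 e2).resolve_right hb
    subst this
    exact Or.inl ⟨rfl, by linarith⟩
  by_cases h2 : p = l
  · subst h2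
    obtain ⟨e1, e2⟩ := rt_indep h (a := (1 - s) * a) (b := s * b - c)
      (by push_cast; linear_combination -e)
    have := (mul_eq_zero.1 e1).resolve_right ha
    have : s = 1 := by linarith
    subst this
    exact Or.inr (Or.inl ⟨rfl, by linarith⟩)
  · rw [rt_third h h1 h2] at e
    obtain ⟨e1, e2⟩ := rt_indep h (a := (1 - s) * a + c) (b := s * b + c)
      (by push_cast; linear_combination -e)
    exact Or.inr (Or.inr ⟨h1, h2, by linear_combination b * e1 + a * e2⟩)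

open Classical in
theorem triax {ι : Type} [Nonempty ι] (R : Finset ι) (ρ : ι → ℝ) (M : ι → ι → ℕ)
    (h0 : ∀ i ∈ R, ρ i ≠ 0) (hi : ∀ i ∈ R, ∀ j ∈ R, ρ i = ρ j → i = j)
    (hs : ∀ i j, M i j = M j i)
    (hno : ∀ i ∈ R, ∀ j ∈ R, ∀ p ∈ R, M i j ≠ 0 → M i p ≠ 0 →
      ρ i * ρ j + ρ j * ρ p + ρ p * ρ i ≠ 0)
    (hcov : ∀ i ∈ R, ∃ j ∈ R, M i j ≠ 0) :
    ∃ (V : Finset ℂ) (μ : ℂ → ℂ → ℕ),
      (∀ k, ∀ i ∈ R, Pt k (ρ i) ∈ V) ∧ (∀ a b, μ a b = μ b a) ∧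
      (∀ a b, μ a b ≠ 0 → a ≠ b ∧ a ∈ V ∧ b ∈ V ∧ ∃ k l, ∃ i ∈ R, ∃ j ∈ R, M i j ≠ 0 ∧
        μ a b = M i j ∧ a ∈ segment ℝ (Pt k (ρ i)) (Pt l (ρ j)) ∧
        b ∈ segment ℝ (Pt k (ρ i)) (Pt l (ρ j))) ∧
      (∀ a b c d, μ a b ≠ 0 → μ c d ≠ 0 → ¬ ((a = c ∧ b = d) ∨ (a = d ∧ b = c)) →
        ∀ x ∈ segment ℝ a b ∩ segment ℝ c d, (x = a ∨ x = b) ∧ (x = c ∨ x = d)) ∧
      (∀ a b v, μ a b ≠ 0 → v ∈ V → v ∈ segment ℝ a b → v = a ∨ v = b) ∧
      (∀ k, ∀ i ∈ R, ∑ w ∈ V.filter (fun w => μ (Pt k (ρ i)) w ≠ 0),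
        (μ (Pt k (ρ i)) w : ℂ) * un (w - Pt k (ρ i)) =
        -2 * ((∑ j ∈ R, M i j * gg (ρ i) (ρ j) : ℝ) : ℂ) * rt k) ∧
      (∀ k, ∀ i ∈ R, 2 * (R.filter (fun j => M i j ≠ 0)).card ≤
        (V.filter (fun w => μ (Pt k (ρ i)) w ≠ 0)).card) ∧
      (∀ v ∈ V, (∀ k, ∀ i ∈ R, v ≠ Pt k (ρ i)) → 3 ≤ (V.filter (fun w => μ v w ≠ 0)).card ∧
        ∑ w ∈ V.filter (fun w => μ v w ≠ 0), (μ v w : ℂ) * un (w - v) = 0) ∧
      ((∀ i ∈ R, ∀ j ∈ R, Relation.ReflTransGen (fun i j => i ∈ R ∧ j ∈ R ∧ M i j ≠ 0) i j) →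
        ∀ a ∈ V, ∀ b ∈ V, Relation.ReflTransGen (fun a b => μ a b ≠ 0) a b) := by
  have hq : ∀ {k l : Fin 3}, ∀ i ∈ R, ∀ j ∈ R, Pt k (ρ i) = Pt l (ρ j) → k = l ∧ i = j :=
    fun i h1 j h2 e => ⟨(Pt_inj (h0 i h1) e).1, hi i h1 j h2 (Pt_inj (h0 i h1) e).2⟩
  obtain ⟨cf, hcf⟩ : ∃ cf : ℂ → ι, ∀ k, ∀ i ∈ R, cf (Pt k (ρ i)) = i := by
    refine ⟨fun z => Classical.epsilon (fun i => i ∈ R ∧ ∃ k, z = Pt k (ρ i)), fun k i h1 => ?_⟩
    obtain ⟨h2, l, h3⟩ := Classical.epsilon_spec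
      (p := fun j => j ∈ R ∧ ∃ l, Pt k (ρ i) = Pt l (ρ j)) ⟨i, h1, k, rfl⟩
    exact (hq i h1 _ h2 h3).2.symm
  obtain ⟨E, hE⟩ : ∃ E : Finset (ℂ × ℂ), ∀ e, e ∈ E ↔ ∃ k l : Fin 3, k ≠ l ∧ ∃ i ∈ R, ∃ j ∈ R,
      M i j ≠ 0 ∧ e = (Pt k (ρ i), Pt l (ρ j)) := by
    refine ⟨(((univ ×ˢ univ) ×ˢ (R ×ˢ R)).filter fun z : (Fin 3 × Fin 3) × ι × ι =>
      z.1.1 ≠ z.1.2 ∧ M z.2.1 z.2.2 ≠ 0).image
        fun z => (Pt z.1.1 (ρ z.2.1), Pt z.1.2 (ρ z.2.2)), fun e => ?_⟩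
    simp only [mem_image, mem_filter, mem_product, mem_univ, true_and]
    constructor
    · rintro ⟨⟨⟨k, l⟩, i, j⟩, ⟨⟨h1, h2⟩, h3, h4⟩, rfl⟩
      exact ⟨k, l, h3, i, h1, j, h2, h4, rfl⟩
    · rintro ⟨k, l, h3, i, h1, j, h2, h4, rfl⟩
      exact ⟨⟨⟨k, l⟩, i, j⟩, ⟨⟨h1, h2⟩, h3, h4⟩, rfl⟩
  have hP : Pre E (fun e => M (cf e.1) (cf e.2)) := by
    refine ⟨?_, fun e _ => hs _ _, ?_, ?_, ?_⟩
    · intro e he
      obtain ⟨k, l, h3, i, h1, j, h2, h4, rfl⟩ := (hE e).1 he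
      exact (hE _).2 ⟨l, k, h3.symm, j, h2, i, h1, by rwa [hs], rfl⟩
    · intro e he
      obtain ⟨k, l, h3, i, h1, j, h2, h4, rfl⟩ := (hE e).1 he
      simpa only [hcf k i h1, hcf l j h2] using h4
    · intro e he
      obtain ⟨k, l, h3, i, h1, j, h2, h4, rfl⟩ := (hE e).1 he
      exact fun hh => h3 (hq i h1 j h2 hh).1
    · intro e he f hf x y hxy a1 a2 a3 a4
      obtain ⟨k, l, h3, i, h1, j, h2, h4, rfl⟩ := (hE e).1 he
      obtain ⟨p, q, g3, u, g1, w, g2, g4, rfl⟩ := (hE f).1 hf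
      unfold sg at a1 a2 a3 a4
      simp only at a1 a2 a3 a4
      obtain ⟨s, e1⟩ := col_of hxy a1 a2 a3 a4
      rw [segment_symm] at a3 a4
      obtain ⟨t, e2⟩ := col_of hxy a1 a2 a3 a4
      have n1 := hno i h1 j h2
      have n2 := hno j h2 i h1
      rcases tri h3 (h0 i h1) (h0 j h2) e1 with ⟨rfl, c1⟩ | ⟨rfl, c1⟩ | ⟨c0, c0', c1⟩ <;>
        rcases tri h3 (h0 i h1) (h0 j h2) e2 with ⟨rfl, c2⟩ | ⟨rfl, c2⟩ | ⟨d0, d0', c2⟩
      · exact absurd rfl g3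
      · left; rw [c1, c2]
      · obtain rfl := hi u g1 i h1 c1
        exact absurd c2 (n1 w g2 h4 g4)
      · right; rw [c1, c2]; rfl
      · exact absurd rfl g3
      · obtain rfl := hi u g1 j h2 c1
        exact absurd (by linear_combination c2) (n2 w g2 (by rwa [hs]) g4)
      · obtain rfl := hi w g2 i h1 c2
        exact absurd c1 (n1 u g1 h4 (by rwa [hs]))
      · obtain rfl := hi w g2 j h2 c2
        exact absurd (by linear_combination c1) (n2 u g1 (by rwa [hs]) (by rwa [hs]))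
      · exfalso
        revert h3 g3 c0 c0' d0 d0'
        clear * -
        revert k l p q
        decide
  obtain ⟨V, μ, p1, p2, p3, p4, p5, p6, p7, p8, p9, p10⟩ := planarize hP
  have hV : ∀ k, ∀ i ∈ R, Pt k (ρ i) ∈ V := by
    intro k i h1
    obtain ⟨j, h2, h3⟩ := hcov i h1
    obtain ⟨l, hl⟩ := exists_ne k
    exact p1 _ ((hE _).2 ⟨k, l, hl.symm, i, h1, j, h2, h3, rfl⟩)
  have hF : ∀ k, ∀ i ∈ R, E.filter (fun e => e.1 = Pt k (ρ i)) =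
      ((univ.erase k) ×ˢ (R.filter (fun j => M i j ≠ 0))).image
        fun z => (Pt k (ρ i), Pt z.1 (ρ z.2)) := by
    intro k i h1
    ext e
    simp only [mem_image, mem_filter, mem_product, mem_erase, mem_univ, and_true, hE]
    constructor
    · rintro ⟨⟨p, l, h3, u, g1, j, h2, h4, rfl⟩, hh⟩
      obtain ⟨rfl, rfl⟩ := hq u g1 i h1 hh
      exact ⟨(l, j), ⟨h3.symm, h2, h4⟩, rfl⟩
    · rintro ⟨⟨l, j⟩, ⟨h3, h2, h4⟩, rfl⟩
      exact ⟨⟨k, l, h3.symm, i, h1, j, h2, h4, rfl⟩, rfl⟩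
  have hI : ∀ k, ∀ i ∈ R, Set.InjOn (fun z : Fin 3 × ι => (Pt k (ρ i), Pt z.1 (ρ z.2)))
      ((univ.erase k) ×ˢ (R.filter (fun j => M i j ≠ 0)) : Finset (Fin 3 × ι)) := by
    intro k i _ z hz z' hz' e
    simp only [coe_product, Set.mem_prod, mem_coe, mem_filter] at hz hz'
    have := hq _ hz.2.1 _ hz'.2.1 (congrArg Prod.snd e)
    exact Prod.ext this.1 this.2
  refine ⟨V, μ, hV, p2, ?_, p4, p5, ?_, ?_, ?_, ?_⟩
  · intro a b hab
    obtain ⟨c1, c2, c3, e, he, c4, c5, c6⟩ := p3 a b hab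
    obtain ⟨k, l, h3, i, h1, j, h2, h4, rfl⟩ := (hE e).1 he
    exact ⟨c1, c2, c3, k, l, i, h1, j, h2, h4, by simpa only [hcf k i h1, hcf l j h2] using c4, c5, c6⟩
  · intro k i h1
    rw [p6 _ (hV k i h1), hF k i h1, sum_image (hI k i h1), sum_product_right]
    push_cast
    rw [mul_sum, sum_mul, sum_filter]
    refine sum_congr rfl fun j h2 => ?_
    simp only [hcf k i h1, hcf _ j h2]
    rw [← mul_sum, Pt_sum]
    split_ifs with hh
    · ring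
    · rw [not_not.1 hh]; simp
  · intro k i h1
    refine le_trans (le_of_eq ?_) (p7 _ (hV k i h1))
    rw [hF k i h1, card_image_of_injOn (hI k i h1), card_product, card_erase_of_mem (mem_univ _)]
    simp
  · intro v hv hn
    have hn' : ∀ e ∈ E, e.1 ≠ v := by
      intro e he
      obtain ⟨k, l, h3, i, h1, j, h2, h4, rfl⟩ := (hE e).1 he
      exact (hn k i h1).symm
    refine ⟨p8 v hv hn', ?_⟩
    rw [p6 v hv, filter_false_of_mem hn', sum_empty]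
  · intro hc
    have hA : ∀ k l : Fin 3, k ≠ l → ∀ i ∈ R, ∀ j ∈ R, M i j ≠ 0 →
        Relation.ReflTransGen (fun a b => μ a b ≠ 0) (Pt k (ρ i)) (Pt l (ρ j)) :=
      fun k l h3 i h1 j h2 h4 => p10 _ ((hE _).2 ⟨k, l, h3, i, h1, j, h2, h4, rfl⟩) _ (hV k i h1)
        (left_mem_segment _ _ _)
    have hB : ∀ k l : Fin 3, ∀ i ∈ R,
        Relation.ReflTransGen (fun a b => μ a b ≠ 0) (Pt k (ρ i)) (Pt l (ρ i)) := by
      intro k l i h1
      obtain ⟨j, h2, h3⟩ := hcov i h1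
      obtain ⟨p, q1, q2⟩ : ∃ p : Fin 3, k ≠ p ∧ p ≠ l := by revert k l; decide
      exact (hA k p q1 i h1 j h2 h3).trans (hA p l q2 j h2 i h1 (by rwa [hs]))
    have hC : ∀ i ∈ R, ∀ j, Relation.ReflTransGen (fun i j => i ∈ R ∧ j ∈ R ∧ M i j ≠ 0) i j →
        ∀ k l, Relation.ReflTransGen (fun a b => μ a b ≠ 0) (Pt k (ρ i)) (Pt l (ρ j)) := by
      intro i h1 j hij
      induction hij with
      | refl => exact fun k l => hB k l i h1
      | tail _ h2 ih =>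
        intro k l
        obtain ⟨p, hp⟩ := exists_ne l
        exact (ih k p).trans (hA p l hp _ h2.1 _ h2.2.1 h2.2.2)
    have hD : ∀ a ∈ V, ∃ k, ∃ i ∈ R, Relation.ReflTransGen (fun a b => μ a b ≠ 0) a (Pt k (ρ i)) := by
      intro a ha
      obtain ⟨e, he, h5⟩ := p9 a ha
      have := p10 e he a ha h5
      obtain ⟨k, l, h3, i, h1, j, h2, h4, rfl⟩ := (hE e).1 he
      exact ⟨l, j, h2, this⟩
    intro a ha b hb
    obtain ⟨k, i, h1, r1⟩ := hD a ha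
    obtain ⟨l, j, h2, r2⟩ := hD b hb
    have r3 : Relation.ReflTransGen (fun a b => μ a b ≠ 0) (Pt l (ρ j)) b := by
      generalize Pt l (ρ j) = z at r2
      induction r2 with
      | refl => exact Relation.ReflTransGen.refl
      | tail _ h3 ih => exact Relation.ReflTransGen.head (by rw [p2]; exact h3) ih
    exact r1.trans ((hC i h1 j (hc i h1 j h2) k l).trans r3)

end Pool.Agent.H.MP_1ce9e9_gt
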