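import Pool.Agent.H.MP_1ce9e9_gt.B

set_option autoImplicit false

/-! A strictly increasing equilibrium of the cooperative chain (Knaster–Tarski). -/

namespace Pool.Agent.H.MP_1ce9e9_gt

open Finset

noncomputable def HH (s : ℝ) : ℝ := Real.sin (Real.arctan (s / √3))

lemma HH_eq (s : ℝ) : HH s = s / √(s ^ 2 + 3) := by
  unfold HH
  rw [Real.sin_arctan, div_div, ← Real.sqrt_mul (by norm_num), div_pow, Real.sq_sqrt (by norm_num)]
  congr 2
  ring

lemma HH_mono : StrictMono HH := by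
  intro s t hst
  unfold HH
  refine Real.strictMonoOn_sin ⟨(Real.neg_pi_div_two_lt_arctan _).le, (Real.arctan_lt_pi_div_two _).le⟩
    ⟨(Real.neg_pi_div_two_lt_arctan _).le, (Real.arctan_lt_pi_div_two _).le⟩
    (Real.arctan_strictMono (div_lt_div_of_pos_right hst s3p))

lemma HH_cont : Continuous HH :=
  Real.continuous_sin.comp (Real.continuous_arctan.comp (continuous_id.div_const _))

lemma HH_le {s r : ℝ} (hr : 0 ≤ r) (h : s ^ 2 ≤ r ^ 2 * (s ^ 2 + 3)) : HH s ≤ r := by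
  rw [HH_eq, div_le_iff₀ (Real.sqrt_pos.2 (by positivity))]
  refine abs_le_of_sq_le_sq' ?_ (by positivity) |>.2
  rw [mul_pow, Real.sq_sqrt (by positivity)]
  exact h

lemma le_HH {s r : ℝ} (hs : 0 ≤ s) (h : r ^ 2 * (s ^ 2 + 3) ≤ s ^ 2) : r ≤ HH s := by
  rw [HH_eq, le_div_iff₀ (Real.sqrt_pos.2 (by positivity))]
  refine abs_le_of_sq_le_sq' ?_ hs |>.2
  rw [mul_pow, Real.sq_sqrt (by positivity)]
  exact h

lemma gg_eq (a : ℝ) {b : ℝ} (hb : 0 < b) : gg a b = HH (1 + 2 * a / b) := by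
  rw [HH_eq]
  unfold gg
  have h1 : (1 + 2 * a / b) ^ 2 + 3 = (2 / b) ^ 2 * (a ^ 2 + a * b + b ^ 2) := by
    field_simp; ring
  have h2 : 0 < √(a ^ 2 + a * b + b ^ 2) := Real.sqrt_pos.2 (by nlinarith [sq_nonneg (a + b / 2)])
  rw [h1, Real.sqrt_mul (by positivity), Real.sqrt_sq (by positivity)]
  field_simp
  ring

lemma gg_neg (a : ℝ) {t : ℝ} (ht : 0 < t) : gg a (-t) = -HH (1 - 2 * a / t) := by
  have := gg_eq (-a) ht
  rw [show 1 + 2 * -a / t = 1 - 2 * a / t by ring] at this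
  rw [← this]
  unfold gg
  rw [show a ^ 2 + a * -t + (-t) ^ 2 = (-a) ^ 2 + -a * t + t ^ 2 by ring]
  ring

lemma gg_lt {a a' b : ℝ} (hb : 0 < b) (h : a < a') : gg a b < gg a' b := by
  rw [gg_eq a hb, gg_eq a' hb]
  exact HH_mono (by have := div_lt_div_of_pos_right h hb; rw [mul_div_assoc, mul_div_assoc]; linarith)

lemma gg_lt' {a b b' : ℝ} (ha : 0 < a) (hb : 0 < b) (h : b < b') : gg a b' < gg a b := by
  rw [gg_eq a hb, gg_eq a (hb.trans h)]
  exact HH_mono (by have := div_lt_div_of_pos_left (a := 2 * a) (by linarith) hb h; linarith)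

lemma gg_le' {a b b' : ℝ} (ha : 0 < a) (hb : 0 < b) (h : b ≤ b') : gg a b' ≤ gg a b := by
  rcases eq_or_lt_of_le h with rfl | h
  · exact le_rfl
  · exact (gg_lt' ha hb h).le

lemma gg_cont {b : ℝ} (hb : 0 < b) : Continuous fun a => gg a b := by
  simp only [gg_eq _ hb]
  exact HH_cont.comp (by fun_prop)

lemma rootfun {lo hi u v : ℝ} (F : ℝ → ℝ → ℝ → ℝ) (h1 : lo ≤ u) (h2 : u ≤ v) (h3 : v ≤ hi)
    (hc : ∀ y z : Set.Icc lo hi, Continuous fun x => F x y z)
    (hm : ∀ y z : Set.Icc lo hi, StrictMono fun x => F x y z)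
    (ha : ∀ x y z y' z' : Set.Icc lo hi, y ≤ y' → z ≤ z' → F x y' z' ≤ F x y z)
    (hu : ∀ y z : Set.Icc lo hi, F u y z ≤ 0) (hv : ∀ y z : Set.Icc lo hi, 0 ≤ F v y z) :
    ∃ T : Set.Icc lo hi → Set.Icc lo hi → Set.Icc lo hi,
      (∀ y z, u ≤ T y z ∧ T y z ≤ v ∧ F (T y z) y z = 0) ∧
      ∀ y z y' z', y ≤ y' → z ≤ z' → T y z ≤ T y' z' := by
  have : ∀ y z : Set.Icc lo hi, ∃ x : Set.Icc lo hi, u ≤ x ∧ x ≤ v ∧ F x y z = 0 := by
    intro y z
    obtain ⟨x, hx, e⟩ := intermediate_value_Icc h2 (hc y z).continuousOn ⟨hu y z, hv y z⟩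
    exact ⟨⟨x, h1.trans hx.1, hx.2.trans h3⟩, hx.1, hx.2, e⟩
  choose T hT using this
  refine ⟨T, hT, fun y z y' z' hy hz => ?_⟩
  have e1 := ha (T y' z') y z y' z' hy hz
  rw [(hT y' z').2.2, ← (hT y z).2.2] at e1
  exact (hm y z).le_iff_le.1 e1

theorem chain {lo p q hi : ℝ} (l0 : 0 < lo) (l1 : lo ≤ p) (l2 : p ≤ q) (l3 : q ≤ hi)
    (c0 c c1 : ℝ → ℝ) (k0 : Continuous c0) (k : Continuous c) (k1 : Continuous c1)
    (a0 : Antitone c0) (a : Antitone c) (a1 : Antitone c1)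
    (h1 : gg lo lo ≤ c0 lo) (h2 : c0 p ≤ gg p hi) (h3 : 2 * gg p lo < c p)
    (h4 : c q < 2 * gg q hi) (h5 : gg q lo ≤ c1 q) (h6 : c1 hi ≤ gg hi hi) (n : ℕ) :
    ∃ x : ℕ → ℝ, (∀ j, lo ≤ x j ∧ x j ≤ hi) ∧ (∀ j ≤ n + 1, x j < x (j + 1)) ∧
      gg (x 0) (x 1) = c0 (x 0) ∧ gg (x (n + 2)) (x (n + 1)) = c1 (x (n + 2)) ∧
      ∀ j ≤ n, gg (x (j + 1)) (x j) + gg (x (j + 1)) (x (j + 2)) = c (x (j + 1)) := by
  have lh : lo ≤ hi := by linarith
  haveI : Fact (lo ≤ hi) := ⟨lh⟩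
  have pos : ∀ y : Set.Icc lo hi, (0 : ℝ) < y := fun y => l0.trans_le y.2.1
  have one : ∀ (d : ℝ → ℝ) (u v : ℝ), Continuous d → Antitone d → lo ≤ u → u ≤ v → v ≤ hi →
      gg u lo ≤ d u → d v ≤ gg v hi → ∃ T : Set.Icc lo hi → Set.Icc lo hi,
      (∀ z, u ≤ T z ∧ T z ≤ v ∧ gg (T z) z = d (T z)) ∧ Monotone T := by
    intro d u v kd ad m1 m2 m3 m4 m5
    obtain ⟨T, t1, t2⟩ := rootfun (lo := lo) (hi := hi) (fun x _ z => gg x z - d x) m1 m2 m3
      (fun _ z => (gg_cont (pos z)).sub kd)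
      (fun _ z s t hst => by have := gg_lt (pos z) hst; have := ad hst.le; beta_reduce; linarith)
      (fun x y z y' z' _ hz => by have := gg_le' (pos x) (pos z) hz; beta_reduce; linarith)
      (fun _ z => by have := gg_le' (by linarith : 0 < u) l0 z.2.1; beta_reduce; linarith)
      (fun _ z => by have := gg_le' (by linarith : 0 < v) (pos z) z.2.2; beta_reduce; linarith)
    exact ⟨fun z => T z z, fun z => ⟨(t1 z z).1, (t1 z z).2.1, sub_eq_zero.1 (t1 z z).2.2⟩,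
      fun z z' h => t2 z z z' z' h h⟩
  obtain ⟨T0, u1, u2⟩ := one c0 lo p k0 a0 le_rfl l1 (by linarith) h1 h2
  obtain ⟨T1, v1, v2⟩ := one c1 q hi k1 a1 (by linarith) l3 le_rfl h5 h6
  have hp : ∀ y z : Set.Icc lo hi, gg p y + gg p z - c p < 0 := fun y z => by
    have := gg_le' (by linarith : 0 < p) l0 y.2.1
    have := gg_le' (by linarith : 0 < p) l0 z.2.1
    linarith
  have hq : ∀ y z : Set.Icc lo hi, 0 < gg q y + gg q z - c q := fun y z => by
    have := gg_le' (by linarith : 0 < q) (pos y) y.2.2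
    have := gg_le' (by linarith : 0 < q) (pos z) z.2.2
    linarith
  obtain ⟨T, t1, t2⟩ := rootfun (lo := lo) (hi := hi) (fun x y z => gg x y + gg x z - c x) l1 l2 l3
    (fun y z => ((gg_cont (pos y)).add (gg_cont (pos z))).sub k)
    (fun y z s t hst => by
      have := gg_lt (pos z) hst; have := gg_lt (pos y) hst; have := a hst.le; beta_reduce; linarith)
    (fun x y z y' z' hy hz => by
      have := gg_le' (pos x) (pos z) hz; have := gg_le' (pos x) (pos y) hy; beta_reduce; linarith)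
    (fun y z => (hp y z).le) (fun y z => (hq y z).le)
  have tp : ∀ y z, p < T y z := fun y z => lt_of_le_of_ne (t1 y z).1 fun hh => by
    have := (t1 y z).2.2
    rw [← hh] at this
    exact (hp y z).ne this
  have tq : ∀ y z, (T y z : ℝ) < q := fun y z => lt_of_le_of_ne (t1 y z).2.1 fun hh => by
    have := (t1 y z).2.2
    rw [hh] at this
    exact (hq y z).ne' this
  obtain ⟨g, g0, g1, g2⟩ : ∃ g : (ℕ → Set.Icc lo hi) → ℕ → Set.Icc lo hi,
      (∀ x, g x 0 = T0 (x 1)) ∧ (∀ x, ∀ j ≤ n, g x (j + 1) = T (x j) (x (j + 2))) ∧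
      ∀ x j, n < j → g x (j + 1) = T1 (x (n + 1)) :=
    ⟨fun x j => Nat.casesOn j (T0 (x 1)) fun j => if j ≤ n then T (x j) (x (j + 2)) else T1 (x (n + 1)),
      fun _ => rfl, fun x j hj => if_pos hj, fun x j hj => if_neg (not_le.2 hj)⟩
  have gm : ∀ x, Monotone x → Monotone (g x) := by
    intro x hx
    refine monotone_nat_of_le_succ fun j => ?_
    rcases j with _ | j
    · rw [g0, g1 x 0 (Nat.zero_le _)]
      exact ((u1 _).2.1.trans (tp _ _).le : (T0 (x 1) : ℝ) ≤ _)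
    · rcases lt_trichotomy j n with h | h | h
      · rw [g1 x j h.le, g1 x (j + 1) h]
        exact t2 _ _ _ _ (hx (by omega)) (hx (by omega))
      · rw [g1 x j h.le, g2 x (j + 1) (by omega)]
        exact ((tq _ _).le.trans (v1 _).1 : _ ≤ (T1 (x (n + 1)) : ℝ))
      · rw [g2 x j h, g2 x (j + 1) (by omega)]
  let G : (ℕ →o Set.Icc lo hi) →o (ℕ →o Set.Icc lo hi) :=
    ⟨fun x => ⟨g x, gm x x.monotone⟩, fun x y hxy j => by
      change g x j ≤ g y j
      rcases j with _ | j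
      · rw [g0, g0]; exact u2 (hxy 1)
      · rcases le_or_gt j n with h | h
        · rw [g1 x j h, g1 y j h]; exact t2 _ _ _ _ (hxy _) (hxy _)
        · rw [g2 x j h, g2 y j h]; exact v2 (hxy _)⟩
  obtain ⟨x, hx⟩ : ∃ x : ℕ →o Set.Icc lo hi, g x = x :=
    ⟨G.lfp, congrArg (fun y : ℕ →o Set.Icc lo hi => (y : ℕ → Set.Icc lo hi)) G.map_lfp⟩
  have e0 : x 0 = T0 (x 1) := by rw [← g0, hx]
  have e1 : ∀ j ≤ n, x (j + 1) = T (x j) (x (j + 2)) := fun j hj => by rw [← g1 x j hj, hx]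
  have e2 : x (n + 2) = T1 (x (n + 1)) := by rw [← g2 x (n + 1) (by omega), hx]
  have b1 : ∀ j ≤ n, gg (x (j + 1)) (x j) + gg (x (j + 1)) (x (j + 2)) = c (x (j + 1)) := by
    intro j hj
    have := (t1 (x j) (x (j + 2))).2.2
    rw [← e1 j hj] at this
    exact sub_eq_zero.1 this
  refine ⟨fun j => x j, fun j => (x j).2, ?_, ?_, ?_, b1⟩
  · intro j
    induction j with
    | zero =>
      intro _
      have := (u1 (x 1)).2.1
      have := tp (x 0) (x 2)
      rw [← e0] at *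
      rw [← e1 0 (Nat.zero_le _)] at *
      beta_reduce
      linarith
    | succ j ih =>
      intro hj
      rcases eq_or_lt_of_le hj with h | h
      · obtain rfl : j = n := by omega
        have := (v1 (x (j + 1))).1
        have := tq (x j) (x (j + 2))
        rw [← e2] at *
        rw [← e1 j le_rfl] at *
        beta_reduce
        linarith
      · have ih := ih (by omega)
        refine lt_of_le_of_ne (x.monotone (Nat.le_succ _) : (x (j + 1) : ℝ) ≤ x (j + 2)) fun hh => ?_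
        have q1 := b1 j (by omega)
        have q2 := b1 (j + 1) (by omega)
        beta_reduce at hh ih
        rw [← hh] at q1 q2
        have := gg_lt' (pos (x (j + 1))) (pos (x j)) ih
        have := gg_le' (pos (x (j + 1))) (pos (x (j + 1)))
          (x.monotone (by omega) : (x (j + 1) : ℝ) ≤ x (j + 1 + 2))
        linarith
  · have := (u1 (x 1)).2.2
    rwa [← e0] at this
  · have := (v1 (x (n + 1))).2.2
    rwa [← e2] at this

end Pool.Agent.H.MP_1ce9e9_gt
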