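import Pool.Agent.H.MP_1ce9e9_gt.C

set_option autoImplicit false

/-! The net: a chain on the three axes, anchored at the points `Pt k (-t)`, `t ∈ T`. -/

namespace Pool.Agent.H.MP_1ce9e9_gt

open Finset

/-- outward pull of the anchors -/
noncomputable def cc (T : Finset ℝ) (W : ℝ → ℕ) (x : ℝ) : ℝ := ∑ t ∈ T, W t * HH (1 - 2 * x / t)

lemma cc_cont (T : Finset ℝ) (W : ℝ → ℕ) : Continuous (cc T W) := by
  unfold cc
  exact continuous_finset_sum _ fun t _ => continuous_const.mul (HH_cont.comp (by fun_prop))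

lemma cc_anti {T : Finset ℝ} (hT : ∀ t ∈ T, 2 ≤ t ∧ t ≤ 201 / 100) (W : ℝ → ℕ) :
    Antitone (cc T W) := by
  intro x y h
  refine sum_le_sum fun t ht => mul_le_mul_of_nonneg_left (HH_mono.monotone ?_) (by positivity)
  have := div_le_div_of_nonneg_right h (by linarith [(hT t ht).1] : 0 ≤ t)
  rw [mul_div_assoc, mul_div_assoc]; linarith

lemma cc_lo {T : Finset ℝ} (hT : ∀ t ∈ T, 2 ≤ t ∧ t ≤ 201 / 100) {W : ℝ → ℕ} {s : ℕ}
    (hW : ∑ t ∈ T, W t = s) {x r : ℝ} (hx : 0 ≤ x) (h : r ≤ HH (1 - x)) : s * r ≤ cc T W x := by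
  rw [← hW]; push_cast; rw [sum_mul]
  refine sum_le_sum fun t ht => mul_le_mul_of_nonneg_left (h.trans (HH_mono.monotone ?_))
    (by positivity)
  have : 2 * x / t ≤ x := by rw [div_le_iff₀ (by linarith [(hT t ht).1])]; nlinarith [(hT t ht).1]
  linarith

lemma cc_hi {T : Finset ℝ} (hT : ∀ t ∈ T, 2 ≤ t ∧ t ≤ 201 / 100) {W : ℝ → ℕ} {s : ℕ}
    (hW : ∑ t ∈ T, W t = s) {x r : ℝ} (hx : 0 ≤ x) (h : HH (1 - 200 * x / 201) ≤ r) :
    cc T W x ≤ s * r := by
  rw [← hW]; push_cast; rw [sum_mul]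
  refine sum_le_sum fun t ht => mul_le_mul_of_nonneg_left ((HH_mono.monotone ?_).trans h)
    (by positivity)
  have : 200 * x / 201 ≤ 2 * x / t := by
    rw [le_div_iff₀ (by linarith [(hT t ht).1])]; nlinarith [(hT t ht).2]
  linarith

lemma chain' {T : Finset ℝ} (hT : ∀ t ∈ T, 2 ≤ t ∧ t ≤ 201 / 100) {W0 W W1 : ℝ → ℕ}
    (s0 : ∑ t ∈ T, W0 t = 2) (s : ∑ t ∈ T, W t = 5) (s1 : ∑ t ∈ T, W1 t = 3) (n : ℕ) :
    ∃ x : ℕ → ℝ, (∀ j, 4 / 25 ≤ x j ∧ x j ≤ 1 / 2) ∧ (∀ j ≤ n + 1, x j < x (j + 1)) ∧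
      gg (x 0) (x 1) = cc T W0 (x 0) ∧ gg (x (n + 2)) (x (n + 1)) = cc T W1 (x (n + 2)) ∧
      ∀ j ≤ n, gg (x (j + 1)) (x j) + gg (x (j + 1)) (x (j + 2)) = cc T W (x (j + 1)) := by
  refine chain (p := 29 / 100) (q := 2 / 5) (by norm_num) (by norm_num) (by norm_num) (by norm_num)
    _ _ _ (cc_cont _ _) (cc_cont _ _) (cc_cont _ _) (cc_anti hT _) (cc_anti hT _) (cc_anti hT _)
    ?_ ?_ ?_ ?_ ?_ ?_ n
  · have := cc_lo hT s0 (x := 4 / 25) (r := 435 / 1000) (by norm_num) (le_HH (by norm_num) (by norm_num))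
    have : gg (4 / 25) (4 / 25) ≤ 867 / 1000 := by
      rw [gg_eq _ (by norm_num)]; exact HH_le (by norm_num) (by norm_num)
    push_cast at *; linarith
  · have := cc_hi hT s0 (x := 29 / 100) (r := 385 / 1000) (by norm_num) (HH_le (by norm_num) (by norm_num))
    have : 775 / 1000 ≤ gg (29 / 100) (1 / 2) := by
      rw [gg_eq _ (by norm_num)]; exact le_HH (by norm_num) (by norm_num)
    push_cast at *; linarith
  · have := cc_lo hT s (x := 29 / 100) (r := 378 / 1000) (by norm_num) (le_HH (by norm_num) (by norm_num))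
    have : gg (29 / 100) (4 / 25) ≤ 940 / 1000 := by
      rw [gg_eq _ (by norm_num)]; exact HH_le (by norm_num) (by norm_num)
    push_cast at *; linarith
  · have := cc_hi hT s (x := 2 / 5) (r := 330 / 1000) (by norm_num) (HH_le (by norm_num) (by norm_num))
    have : 830 / 1000 ≤ gg (2 / 5) (1 / 2) := by
      rw [gg_eq _ (by norm_num)]; exact le_HH (by norm_num) (by norm_num)
    push_cast at *; linarith
  · have := cc_lo hT s1 (x := 2 / 5) (r := 325 / 1000) (by norm_num) (le_HH (by norm_num) (by norm_num))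
    have : gg (2 / 5) (4 / 25) ≤ 965 / 1000 := by
      rw [gg_eq _ (by norm_num)]; exact HH_le (by norm_num) (by norm_num)
    push_cast at *; linarith
  · have := cc_hi hT s1 (x := 1 / 2) (r := 285 / 1000) (by norm_num) (HH_le (by norm_num) (by norm_num))
    have : 860 / 1000 ≤ gg (1 / 2) (1 / 2) := by
      rw [gg_eq _ (by norm_num)]; exact le_HH (by norm_num) (by norm_num)
    push_cast at *; linarith

/-- multiplicities between the index classes -/
def MM (Wt : ℕ → ℝ → ℕ) : ℕ ⊕ ℝ → ℕ ⊕ ℝ → ℕ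
  | Sum.inl i, Sum.inl j => if i + 1 = j ∨ j + 1 = i then 1 else 0
  | Sum.inl i, Sum.inr t => Wt i t
  | Sum.inr t, Sum.inl i => Wt i t
  | Sum.inr _, Sum.inr _ => 0

lemma norm_Pt (k : Fin 3) (a : ℝ) : ‖Pt k a‖ = |a| := by
  unfold Pt; rw [norm_mul, rt_norm, Complex.norm_real, Real.norm_eq_abs, mul_one]

lemma gg_anchor {t x : ℝ} (ht : 2 ≤ t) (h0 : 0 < x) (h1 : x ≤ 1 / 2) : gg (-t) x < 0 := by
  unfold gg
  exact div_neg_of_neg_of_pos (by linarith) (Real.sqrt_pos.2 (by nlinarith [sq_nonneg (-t + x / 2)]))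

open Classical in
theorem net {T : Finset ℝ} (hT : ∀ t ∈ T, 2 ≤ t ∧ t ≤ 201 / 100) {W0 W W1 : ℝ → ℕ}
    (s0 : ∑ t ∈ T, W0 t = 2) (s : ∑ t ∈ T, W t = 5) (s1 : ∑ t ∈ T, W1 t = 3)
    (hW : ∀ t ∈ T, W t ≠ 0) {B : ℕ} (hB1 : 1 ≤ B) (hB : ∀ t ∈ T, W0 t ≤ B ∧ W t ≤ B ∧ W1 t ≤ B)
    (n : ℕ) :
    ∃ (V : Finset ℂ) (μ : ℂ → ℂ → ℕ),
      (∀ k, ∀ t ∈ T, Pt k (-t) ∈ V) ∧ (∀ a b, μ a b = μ b a) ∧
      (∀ a b, μ a b ≠ 0 → a ≠ b ∧ a ∈ V ∧ b ∈ V) ∧ (∀ a b, μ a b ≤ B) ∧
      (∀ a b c d, μ a b ≠ 0 → μ c d ≠ 0 → ¬ ((a = c ∧ b = d) ∨ (a = d ∧ b = c)) →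
        ∀ x ∈ segment ℝ a b ∩ segment ℝ c d, (x = a ∨ x = b) ∧ (x = c ∨ x = d)) ∧
      (∀ a b v, μ a b ≠ 0 → v ∈ V → v ∈ segment ℝ a b → v = a ∨ v = b) ∧
      (∀ v ∈ V, (∀ k, ∀ t ∈ T, v ≠ Pt k (-t)) → 3 ≤ (V.filter (fun w => μ v w ≠ 0)).card ∧
        ∑ w ∈ V.filter (fun w => μ v w ≠ 0), (μ v w : ℂ) * un (w - v) = 0) ∧
      (∀ k, ∀ t ∈ T, ∑ w ∈ V.filter (fun w => μ (Pt k (-t)) w ≠ 0),
        (μ (Pt k (-t)) w : ℂ) * un (w - Pt k (-t)) ≠ 0) ∧
      (∀ a ∈ V, ∀ b ∈ V, Relation.ReflTransGen (fun a b => μ a b ≠ 0) a b) ∧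
      n < (V.filter (fun v => ∀ k, ∀ t ∈ T, v ≠ Pt k (-t))).card ∧
      (∀ a b, μ a b ≠ 0 → ∃ P Q : ℂ, ‖P‖ ≤ 1 / 2 ∧ (‖Q‖ ≤ 1 / 2 ∨ ∃ t ∈ T, ‖Q‖ = t) ∧
        a ∈ segment ℝ P Q ∧ b ∈ segment ℝ P Q) := by
  obtain ⟨x, x1, x2, x3, x4, x5⟩ := chain' hT s0 s s1 n
  have xp : ∀ j, 0 < x j := fun j => by linarith [(x1 j).1]
  have xm : StrictMonoOn x (Set.Iic (n + 2)) :=
    strictMonoOn_Iic_of_lt_succ fun j hj => x2 j (by omega)
  have xi : ∀ i < n + 3, ∀ j < n + 3, x i = x j → i = j :=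
    fun i hi j hj e => xm.injOn (by simp; omega) (by simp; omega) e
  obtain ⟨Wt, w0, w1, w2⟩ : ∃ Wt : ℕ → ℝ → ℕ, Wt 0 = W0 ∧ (∀ j ≤ n, Wt (j + 1) = W) ∧
      ∀ j, n < j → Wt (j + 1) = W1 :=
    ⟨fun j => Nat.casesOn j W0 fun j => if j ≤ n then W else W1, rfl, fun j hj => if_pos hj,
      fun j hj => if_neg (not_le.2 hj)⟩
  have wB : ∀ j, ∀ t ∈ T, Wt j t ≤ B := by
    intro j t ht
    rcases j with _ | j
    · rw [w0]; exact (hB t ht).1
    · rcases le_or_gt j n with h | h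
      · rw [w1 j h]; exact (hB t ht).2.1
      · rw [w2 j h]; exact (hB t ht).2.2
  have wE : ∀ j, ∃ t ∈ T, Wt j t ≠ 0 := by
    intro j
    apply exists_ne_zero_of_sum_ne_zero
    rcases j with _ | j
    · rw [w0, s0]; norm_num
    · rcases le_or_gt j n with h | h
      · rw [w1 j h, s]; norm_num
      · rw [w2 j h, s1]; norm_num
  have nb : ∀ j < n + 3, ∃ i < n + 3, j + 1 = i ∨ i + 1 = j := by
    intro j hj
    rcases j with _ | j
    · exact ⟨1, by omega, by omega⟩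
    · exact ⟨j, by omega, by omega⟩
  have hc : ∀ j < n + 3, Relation.ReflTransGen (fun i j => i ∈ (range (n + 3)).disjSum T ∧
      j ∈ (range (n + 3)).disjSum T ∧ MM Wt i j ≠ 0) (Sum.inl j) (Sum.inl 0) ∧
      Relation.ReflTransGen (fun i j => i ∈ (range (n + 3)).disjSum T ∧
      j ∈ (range (n + 3)).disjSum T ∧ MM Wt i j ≠ 0) (Sum.inl 0) (Sum.inl j) := by
    intro j
    induction j with
    | zero => exact fun _ => ⟨.refl, .refl⟩
    | succ j ih =>
      intro hj
      have := ih (by omega)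
      exact ⟨.head ⟨by simp; omega, by simp; omega, by simp [MM]⟩ this.1,
        .tail this.2 ⟨by simp; omega, by simp; omega, by simp [MM]⟩⟩
  obtain ⟨V, μ, p1, p2, p3, p4, p5, p6, p7, p8, p9⟩ := triax ((range (n + 3)).disjSum T)
    (Sum.elim x fun t => -t) (MM Wt)
    (by
      rintro (i | t) hi
      · exact (xp i).ne'
      · have := (hT t (by simpa using hi)).1
        simp; linarith)
    (by
      rintro (i | t) hi (j | u) hj e <;> simp at hi hj e ⊢
      · exact xi i hi j hj e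
      · linarith [xp i, (hT u hj).1]
      · linarith [xp j, (hT t hi).1]
      · exact e)
    (by rintro (i | t) (j | u) <;> simp [MM, or_comm])
    (by
      rintro (i | t) hi (j | u) hj (p | r) hp e1 e2 <;> simp [MM] at hi hj hp e1 e2 ⊢
      · have := xp i; have := xp j; have := xp p; positivity
      · have := xp i; have := xp j; have := (hT r hp).1; have := (x1 i).2; nlinarith
      · have := xp i; have := xp p; have := (hT u hj).1; have := (x1 i).2; nlinarith
      · have := xp i; have := (hT r hp).1; have := (hT u hj).1; have := (x1 i).2; nlinarith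
      · have := xp j; have := xp p; have := (hT t hi).1; have := (x1 j).2; nlinarith)
    (by
      rintro (i | t) hi <;> simp at hi
      · obtain ⟨t, h1, h2⟩ := wE i
        exact ⟨Sum.inr t, by simpa using h1, h2⟩
      · refine ⟨Sum.inl 1, by simp, ?_⟩
        have := w1 0 (Nat.zero_le _)
        simp only [MM]
        rw [this]; exact hW t hi)
  have mT : ∀ t ∈ T, Sum.inr t ∈ (range (n + 3)).disjSum T := fun t ht => by simpa using ht
  have mX : ∀ j < n + 3, Sum.inl j ∈ (range (n + 3)).disjSum T := fun j hj => by simpa using hj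
  have hne : ∀ j k l, ∀ t ∈ T, Pt l (x j) ≠ Pt k (-t) := fun j k l t ht e => by
    have := (Pt_inj (xp j).ne' e).2
    linarith [xp j, (hT t ht).1]
  refine ⟨V, μ, fun k t ht => p1 k _ (mT t ht), p2,
    fun a b h => ⟨(p3 a b h).1, (p3 a b h).2.1, (p3 a b h).2.2.1⟩, ?_, p4, p5, ?_, ?_, p9 ?_, ?_, ?_⟩
  · intro a b
    by_cases h : μ a b = 0
    · omega
    obtain ⟨-, -, -, k, l, i, hi, j, hj, -, e, -⟩ := p3 a b h
    rw [e]
    rcases i with i | t <;> rcases j with j | u <;> simp only [MM]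
    · split_ifs <;> omega
    · exact wB i u (by simpa using hj)
    · exact wB j t (by simpa using hi)
    · omega
  · intro v hv hn
    by_cases h : ∃ k, ∃ j < n + 3, v = Pt k (x j)
    · obtain ⟨k, j, hj, rfl⟩ := h
      constructor
      · refine le_trans ?_ (p7 k _ (mX j hj))
        obtain ⟨t, h1, h2⟩ := wE j
        obtain ⟨i, h3, h4⟩ := nb j hj
        have : 1 < (((range (n + 3)).disjSum T).filter (fun i => MM Wt (Sum.inl j) i ≠ 0)).card :=
          one_lt_card.2 ⟨Sum.inr t, mem_filter.2 ⟨mT t h1, h2⟩, Sum.inl i,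
            mem_filter.2 ⟨mX i h3, by simp only [MM]; rw [if_pos h4]; norm_num⟩, by simp⟩
        omega
      · have := p6 k _ (mX j hj)
        simp only [Sum.elim_inl] at this
        rw [this, sum_disjSum]
        simp only [MM, Sum.elim_inl, Sum.elim_inr]
        have e1 : ∑ t ∈ T, (Wt j t : ℝ) * gg (x j) (-t) = -cc T (Wt j) (x j) := by
          unfold cc
          rw [← sum_neg_distrib]
          refine sum_congr rfl fun t ht => ?_
          rw [gg_neg _ (by linarith [(hT t ht).1])]; ring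
        have e2 : ∑ i ∈ range (n + 3), ((if j + 1 = i ∨ i + 1 = j then 1 else 0 : ℕ) : ℝ) *
            gg (x j) (x i) = cc T (Wt j) (x j) := by
          simp only [Nat.cast_ite, Nat.cast_one, Nat.cast_zero, ite_mul, one_mul, zero_mul]
          rw [← sum_filter]
          rcases j with _ | j
          · rw [w0, ← x3, show (range (n + 3)).filter (fun i => 0 + 1 = i ∨ i + 1 = 0) = {1} by
              ext i; simp; omega, sum_singleton]
          · rcases le_or_gt j n with h | h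
            · rw [w1 j h, ← x5 j h, show (range (n + 3)).filter
                (fun i => j + 1 + 1 = i ∨ i + 1 = j + 1) = {j, j + 2} by ext i; simp; omega,
                sum_pair (by omega)]
            · obtain rfl : j = n + 1 := by omega
              rw [w2 _ h, ← x4, show (range (n + 3)).filter
                (fun i => n + 1 + 1 + 1 = i ∨ i + 1 = n + 1 + 1) = {n + 1} by ext i; simp; omega,
                sum_singleton]
        rw [e1, e2]
        simp
    · refine p8 v hv ?_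
      rintro k (j | t) hi e
      · exact h ⟨k, j, by simpa using hi, e⟩
      · exact hn k t (by simpa using hi) e
  · intro k t ht
    have := p6 k _ (mT t ht)
    simp only [Sum.elim_inr] at this
    rw [this, sum_disjSum]
    simp only [MM, Sum.elim_inl, Sum.elim_inr, Nat.cast_zero, zero_mul, sum_const_zero, add_zero]
    refine mul_ne_zero (mul_ne_zero (by norm_num) ?_) (rt_ne k)
    have : ∑ i ∈ range (n + 3), (Wt i t : ℝ) * gg (-t) (x i) < ∑ i ∈ range (n + 3), (0 : ℝ) := by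
      refine sum_lt_sum (fun i _ => mul_nonpos_of_nonneg_of_nonpos (by positivity)
        (gg_anchor (hT t ht).1 (xp i) (x1 i).2).le) ⟨1, by simp, ?_⟩
      refine mul_neg_of_pos_of_neg ?_ (gg_anchor (hT t ht).1 (xp 1) (x1 1).2)
      have := w1 0 (Nat.zero_le _)
      rw [this]
      exact_mod_cast Nat.pos_of_ne_zero (hW t ht)
    rw [sum_const_zero] at this
    exact_mod_cast this.ne
  · have h1 : ∀ t ∈ T, MM Wt (Sum.inr t) (Sum.inl 1) ≠ 0 := fun t ht => by
      have := w1 0 (Nat.zero_le _)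
      simp only [MM]
      rw [this]; exact hW t ht
    intro i hi j hj
    refine Relation.ReflTransGen.trans (b := Sum.inl 0) ?_ ?_
    · rcases i with i | t
      · exact (hc i (by simpa using hi)).1
      · exact .head ⟨hi, mX 1 (by omega), h1 t (by simpa using hi)⟩ (hc 1 (by omega)).1
    · rcases j with j | t
      · exact (hc j (by simpa using hj)).2
      · exact .tail (hc 1 (by omega)).2 ⟨mX 1 (by omega), hj, h1 t (by simpa using hj)⟩
  · have : ((range (n + 3)).image fun j => Pt 0 (x j)).card = n + 3 := by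
      rw [card_image_of_injOn, card_range]
      intro i hi j hj e
      exact xi i (by simpa using hi) j (by simpa using hj) (Pt_inj (xp i).ne' e).2
    refine lt_of_lt_of_le (by omega : n < n + 3) ?_
    rw [← this]
    refine card_le_card fun v hv => ?_
    obtain ⟨j, hj, rfl⟩ := mem_image.1 hv
    exact mem_filter.2 ⟨p1 0 _ (mX j (by simpa using hj)), fun k t ht => hne j k 0 t ht⟩
  · intro a b h
    obtain ⟨-, -, -, k, l, i, hi, j, hj, e, -, c1, c2⟩ := p3 a b h
    have nx : ∀ k i, ‖Pt k (x i)‖ ≤ 1 / 2 := fun k i => by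
      rw [norm_Pt, abs_of_pos (xp i)]; exact (x1 i).2
    have nt : ∀ k, ∀ t ∈ T, ‖Pt k (-t)‖ = t := fun k t ht => by
      rw [norm_Pt, abs_neg, abs_of_pos (by linarith [(hT t ht).1])]
    rcases i with i | t <;> rcases j with j | u
    · exact ⟨_, _, nx k i, Or.inl (nx l j), c1, c2⟩
    · have hu : u ∈ T := by simpa using hj
      exact ⟨_, _, nx k i, Or.inr ⟨u, hu, nt l u hu⟩, c1, c2⟩
    · have ht : t ∈ T := by simpa using hi
      rw [segment_symm] at c1 c2
      exact ⟨_, _, nx l j, Or.inr ⟨t, ht, nt k t ht⟩, c1, c2⟩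
    · exact absurd rfl e

end Pool.Agent.H.MP_1ce9e9_gt
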